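import Pool.Agent.Helper96.ME.Defs
import Pool.Agent.Helper30.MP.FAREY

/-!
MP_bde085_nt, block E, module FARG: a function on `SL₂(ℤ)` which satisfies the Manin relations has
a potential on the cusps.
-/

set_option autoImplicit false

namespace Pool.Agent.Helper96.ME

open Pool.Agent.Helper96.MP
open scoped MatrixGroups

/-- the matrix `(p,x;q,y)` -/
def farg_m (p x q y : ℤ) (h : p * y - x * q = 1) : SL(2, ℤ) :=
  ⟨!![p, x; q, y], by rw [Matrix.det_fin_two_of]; exact h⟩

/-- the value at the matrix `(p,x;q,y)` -/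
noncomputable def farg_F (w : SL(2, ℤ) → ℝ) (p x q y : ℤ) : ℝ :=
  if h : p * y - x * q = 1 then w (farg_m p x q y h) else 0

theorem farg_F_eq (w : SL(2, ℤ) → ℝ) {p x q y : ℤ} (h : p * y - x * q = 1) :
    farg_F w p x q y = w (farg_m p x q y h) := by
  unfold farg_F
  rw [dif_pos h]

theorem farg_h2 {w : SL(2, ℤ) → ℝ} (h2 : ∀ y, w y + w (y * ModularGroup.S) = 0)
    {p x q y : ℤ} (h : p * y - x * q = 1) :
    farg_F w p x q y + farg_F w x (-p) y (-q) = 0 := by
  have h' : x * (-q) - (-p) * y = 1 := by linarith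
  rw [farg_F_eq w h, farg_F_eq w h']
  have := h2 (farg_m p x q y h)
  have e : farg_m p x q y h * ModularGroup.S = farg_m x (-p) y (-q) h' := by
    apply Subtype.ext
    rw [Matrix.SpecialLinearGroup.coe_mul, ModularGroup.coe_S]
    ext i j
    fin_cases i <;> fin_cases j <;> simp [Matrix.mul_apply, Fin.sum_univ_two, farg_m]
  rw [e] at this
  exact this

theorem farg_h3 {w : SL(2, ℤ) → ℝ} (h3 : ∀ y, w y + w (y * mR) + w (y * (mR * mR)) = 0)
    {p x q y : ℤ} (h : p * y - x * q = 1) :
    farg_F w p x q y + farg_F w (p + x) (-p) (q + y) (-q) +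
      farg_F w x (-p - x) y (-q - y) = 0 := by
  have h' : (p + x) * (-q) - (-p) * (q + y) = 1 := by linarith
  have h'' : x * (-q - y) - (-p - x) * y = 1 := by linarith
  rw [farg_F_eq w h, farg_F_eq w h', farg_F_eq w h'']
  have := h3 (farg_m p x q y h)
  have e : farg_m p x q y h * mR = farg_m (p + x) (-p) (q + y) (-q) h' := by
    apply Subtype.ext
    rw [Matrix.SpecialLinearGroup.coe_mul]
    ext i j
    fin_cases i <;> fin_cases j <;> simp [Matrix.mul_apply, Fin.sum_univ_two, mR, farg_m]
  have e2 : farg_m p x q y h * (mR * mR) = farg_m x (-p - x) y (-q - y) h'' := by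
    apply Subtype.ext
    rw [Matrix.SpecialLinearGroup.coe_mul, Matrix.SpecialLinearGroup.coe_mul]
    ext i j
    fin_cases i <;> fin_cases j <;>
      simp [Matrix.mul_apply, Fin.sum_univ_two, mR, farg_m, sub_eq_add_neg]
  rw [e, e2] at this
  exact this

theorem farg_hn {w : SL(2, ℤ) → ℝ} (h2 : ∀ y, w y + w (y * ModularGroup.S) = 0)
    {p x q y : ℤ} (h : p * y - x * q = 1) :
    farg_F w (-p) (-x) (-q) (-y) = farg_F w p x q y := by
  have a := farg_h2 h2 h
  have h' : x * (-q) - (-p) * y = 1 := by linarith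
  have b := farg_h2 h2 h'
  linarith

/-- the potential on fractions with nonnegative denominator -/
noncomputable def farg_c (f : ℤ → ℤ → ℤ → ℤ → ℝ) : ℕ → ℤ → ℝ
  | 0, _ => 0
  | q + 1, p => farg_c f (farey_inv p q) ((p * (farey_inv p q : ℤ) - 1) / ((q : ℤ) + 1)) +
      f p ((p * (farey_inv p q : ℤ) - 1) / ((q : ℤ) + 1)) ((q : ℤ) + 1) (farey_inv p q)
termination_by q => q
decreasing_by exact farey_inv_lt p q

theorem farg_c_zero (f : ℤ → ℤ → ℤ → ℤ → ℝ) (p : ℤ) : farg_c f 0 p = 0 := by
  rw [farg_c]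

theorem farg_step (f : ℤ → ℤ → ℤ → ℤ → ℝ) (p x : ℤ) (q y : ℕ) (hy : y < q)
    (h : p * y - x * (q : ℤ) = 1) : farg_c f q p - farg_c f y x = f p x q y := by
  obtain ⟨q, rfl⟩ : ∃ k, q = k + 1 := ⟨q - 1, by omega⟩
  have h' : p * y - x * ((q : ℤ) + 1) = 1 := by
    push_cast at h
    exact h
  obtain ⟨h1, h2⟩ := farey_inv_eq p x q y hy h'
  rw [farg_c, h2, h1]
  push_cast
  ring

theorem farg_A (f : ℤ → ℤ → ℤ → ℤ → ℝ)
    (h2 : ∀ p x q y : ℤ, p * y - x * q = 1 → f p x q y + f x (-p) y (-q) = 0)
    (h3 : ∀ p x q y : ℤ, p * y - x * q = 1 →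
      f p x q y + f (p + x) (-p) (q + y) (-q) + f x (-p - x) y (-q - y) = 0)
    (hn : ∀ p x q y : ℤ, p * y - x * q = 1 → f (-p) (-x) (-q) (-y) = f p x q y) :
    ∀ (n q y : ℕ) (p x : ℤ), q + y ≤ n → p * y - x * q = 1 →
      farg_c f q p - farg_c f y x = f p x q y := by
  intro n
  induction n with
  | zero =>
    intro q y p x hn h
    have h1 : q = 0 := by omega
    have h2 : y = 0 := by omega
    subst h1 h2
    simp at h
  | succ n ih =>
    intro q y p x hn' h
    rcases lt_trichotomy y q with hlt | heq | hgt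
    · exact farg_step f p x q y hlt h
    · subst heq
      have h1 : (p - x) * (y : ℤ) = 1 := by linarith
      have h4 : (y : ℤ) = 1 := by
        have hy : (y : ℤ) ∣ 1 := ⟨p - x, by linarith⟩
        exact Int.eq_one_of_dvd_one (by omega) hy
      have h5 : y = 1 := by exact_mod_cast h4
      subst h5
      have h6 := farg_step f p (-1) 1 0 (by norm_num) (by norm_num)
      have h7 := farg_step f x (-1) 1 0 (by norm_num) (by norm_num)
      rw [farg_c_zero] at h6 h7
      have hp : p = x + 1 := by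
        push_cast at h1; linarith
      subst hp
      have e1 := h3 (x + 1) (-1) 1 0 (by ring)
      have e2 := h2 (x + 1) x 1 1 (by ring)
      have e3 := h2 x (-1) 1 0 (by ring)
      have e4 : x + 1 + -1 = x := by ring
      have e5 : -(x + 1) - -1 = -x := by ring
      have e6 : (1 : ℤ) + 0 = 1 := by norm_num
      have e7 : (-1 : ℤ) - 0 = -1 := by norm_num
      rw [e4, e5, e6, e7] at e1
      push_cast at h6 h7 ⊢
      linarith
    · by_cases hq : q = 0
      · subst hq
        have h1 : p * (y : ℤ) = 1 := by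
          push_cast at h
          linarith
        have h4 : (y : ℤ) = 1 := Int.eq_one_of_dvd_one (by omega) ⟨p, by linarith⟩
        have h5 : y = 1 := by exact_mod_cast h4
        subst h5
        have h7 := farg_step f x (-1) 1 0 (by norm_num) (by norm_num)
        rw [farg_c_zero] at h7 ⊢
        have hp : p = 1 := by
          push_cast at h1; linarith
        subst hp
        have e2 := h2 1 x 0 1 (by ring)
        have e3 : (-0 : ℤ) = 0 := by norm_num
        rw [e3] at e2
        push_cast at h7 ⊢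
        linarith
      · obtain ⟨z, rfl⟩ : ∃ z, y = q + z := ⟨y - q, by omega⟩
        have hz : 0 < z := by omega
        have d1 : x * (z : ℤ) - (x - p) * ((q + z : ℕ) : ℤ) = 1 := by
          push_cast at h ⊢
          linarith
        have h1 := farg_step f x (x - p) (q + z) z (by omega) d1
        have d2 : p * (z : ℤ) - (x - p) * q = 1 := by
          push_cast at h ⊢
          linarith
        have h4 := ih q z p (x - p) (by omega) d2
        have e3 := h3 p (x - p) q z d2
        have d3 : x * (-(q : ℤ)) - (-p) * ((q : ℤ) + z) = 1 := by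
          push_cast at h
          linarith
        have e4 := h2 x (-p) ((q : ℤ) + z) (-(q : ℤ)) d3
        have d4 : (x - p) * (-(q : ℤ) - z) - (-x) * (z : ℤ) = 1 := by
          push_cast at h
          linarith
        have e5 := h2 (x - p) (-x) z (-(q : ℤ) - z) d4
        have d5 : p * ((q : ℤ) + z) - x * q = 1 := by
          push_cast at h
          linarith
        have e6 := hn p x q ((q : ℤ) + z) d5
        have d6 : x * (z : ℤ) - (x - p) * ((q : ℤ) + z) = 1 := by
          push_cast at h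
          linarith
        have e7 := hn x (x - p) ((q : ℤ) + z) z d6
        have r1 : p + (x - p) = x := by ring
        have r2 : -p - (x - p) = -x := by ring
        have r3 : -((q : ℤ) + z) = -(q : ℤ) - z := by ring
        rw [r1, r2] at e3
        rw [r3] at e4 e6 e7
        push_cast at h1 h4 ⊢
        linarith

/-- the potential -/
noncomputable def farg_C (f : ℤ → ℤ → ℤ → ℤ → ℝ) (p q : ℤ) : ℝ :=
  if q = 0 then 0 else farg_c f ((p : ℚ) / (q : ℚ)).den ((p : ℚ) / (q : ℚ)).num

theorem farg_C_hom (f : ℤ → ℤ → ℤ → ℤ → ℝ) (k p q : ℤ) (hk : k ≠ 0) :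
    farg_C f (k * p) (k * q) = farg_C f p q := by
  unfold farg_C
  by_cases hq : q = 0
  · simp [hq]
  · have hkq : k * q ≠ 0 := mul_ne_zero hk hq
    rw [if_neg hq, if_neg hkq]
    have h : ((k * p : ℤ) : ℚ) / ((k * q : ℤ) : ℚ) = (p : ℚ) / (q : ℚ) := by
      push_cast
      have : (k : ℚ) ≠ 0 := by exact_mod_cast hk
      rw [mul_div_mul_left _ _ this]
    rw [h]

theorem farg_C_nat (f : ℤ → ℤ → ℤ → ℤ → ℝ) (p : ℤ) (q : ℕ) (h : IsCoprime p (q : ℤ)) :
    farg_C f p q = farg_c f q p := by
  unfold farg_C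
  by_cases hq : q = 0
  · subst hq
    simp [farg_c_zero]
  · rw [if_neg (by exact_mod_cast hq)]
    have hpos : (0 : ℤ) < (q : ℤ) := by omega
    have hc : Nat.Coprime p.natAbs ((q : ℤ)).natAbs := by
      rw [Int.isCoprime_iff_gcd_eq_one] at h
      exact h
    have h1 := Rat.num_div_eq_of_coprime hpos hc
    have h2 := Rat.den_div_eq_of_coprime hpos hc
    rw [h1]
    congr 1
    exact_mod_cast h2

theorem farg_edge (f : ℤ → ℤ → ℤ → ℤ → ℝ)
    (h2 : ∀ p x q y : ℤ, p * y - x * q = 1 → f p x q y + f x (-p) y (-q) = 0)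
    (h3 : ∀ p x q y : ℤ, p * y - x * q = 1 →
      f p x q y + f (p + x) (-p) (q + y) (-q) + f x (-p - x) y (-q - y) = 0)
    (hn : ∀ p x q y : ℤ, p * y - x * q = 1 → f (-p) (-x) (-q) (-y) = f p x q y)
    (p x q y : ℤ) (h : p * y - x * q = 1) : f p x q y = farg_C f p q - farg_C f x y := by
  have main : ∀ (q : ℕ) (p x y : ℤ), p * y - x * q = 1 →
      f p x q y = farg_C f p q - farg_C f x y := by
    intro q p x y h
    have hpq : IsCoprime p (q : ℤ) := ⟨y, -x, by linarith⟩
    rcases Int.eq_nat_or_neg y with ⟨m, rfl | rfl⟩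
    · have hxm : IsCoprime x (m : ℤ) := ⟨-q, p, by linarith⟩
      rw [farg_C_nat f p q hpq, farg_C_nat f x m hxm]
      exact (farg_A f h2 h3 hn (q + m) q m p x le_rfl h).symm
    · have hxm : IsCoprime (-x) (m : ℤ) := ⟨q, -p, by linarith⟩
      have e1 : farg_C f x (-(m : ℤ)) = farg_C f (-x) m := by
        have := farg_C_hom f (-1) (-x) m (by norm_num)
        rw [neg_one_mul, neg_one_mul, neg_neg] at this
        exact this
      rw [e1, farg_C_nat f p q hpq, farg_C_nat f (-x) m hxm]
      have d : (-x) * (q : ℤ) - p * m = 1 := by linarith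
      have e2 := farg_A f h2 h3 hn (m + q) m q (-x) p le_rfl d
      have e3 := h2 (-x) p m q d
      rw [neg_neg] at e3
      linarith
  rcases Int.eq_nat_or_neg q with ⟨m, rfl | rfl⟩
  · exact main m p x y h
  · have h1 := main m (-p) (-x) (-y) (by linarith)
    have e1 : farg_C f p (-(m : ℤ)) = farg_C f (-p) m := by
      have := farg_C_hom f (-1) (-p) m (by norm_num)
      rw [neg_one_mul, neg_one_mul, neg_neg] at this
      exact this
    have e2 : farg_C f (-x) (-y) = farg_C f x y := by
      have := farg_C_hom f (-1) x y (by norm_num)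
      rw [neg_one_mul, neg_one_mul] at this
      exact this
    have e3 := hn p x (-(m : ℤ)) y h
    rw [neg_neg] at e3
    rw [e1, ← e3, h1, e2]

theorem st_FARG : ST_FARG := by
  intro w h2 h3
  refine ⟨farg_C (farg_F w), fun k p q hk => farg_C_hom _ k p q hk, ?_⟩
  intro y
  have hdet : y 0 0 * y 1 1 - y 0 1 * y 1 0 = 1 := by
    have h := y.2
    rw [Matrix.det_fin_two] at h
    exact h
  have e := farg_edge (farg_F w) (fun p x q y h => farg_h2 h2 h)
    (fun p x q y h => farg_h3 h3 h) (fun p x q y h => farg_hn h2 h)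
    (y 0 0) (y 0 1) (y 1 0) (y 1 1) hdet
  rw [farg_F_eq w hdet] at e
  rw [← e]
  congr 1
  apply Subtype.ext
  ext i j
  fin_cases i <;> fin_cases j <;> rfl

end Pool.Agent.Helper96.ME
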